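import Pool.Agent.Helper89.BX.Blo

set_option autoImplicit false

/-!
# A bounded kernel whose Bergman space extremal function is not in `BMOA`

Question Q1 has a negative answer: for `p = 8/7` there is a nonzero bounded kernel `k` whose `A^p`
extremal function is not in the Bloch space, so in particular is not in `BMOA`.

The extremal function is a multiple of `F = y⁷ exp(iβ)`, where `v = (10⁷ - log(1 - z))^{1/6}`,
`y = 3 v + cos(v³)` and `β = v + sin(v³)/(3v)`; `|F|^{p-2} F = L(conj z) H(z)` with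
`L = y^{-3} exp(3iβ/7)` and `H = y⁴ exp(4iβ/7)`.
-/

open Metric Filter Topology MeasureTheory Real Set

namespace Pool.Agent.Results.MP_7d928b_an.BoundedKernelNotBMOA

open scoped ComplexConjugate

/-- The Bergman space `A^r` of the unit disc (area measure). -/
def Bergman (r : ℝ) (f : ℂ → ℂ) : Prop :=
  DifferentiableOn ℂ f (ball 0 1) ∧ IntegrableOn (fun z => ‖f z‖ ^ r) (ball (0 : ℂ) 1)

/-- `F` is an `A^p` extremal function for the kernel `k`: it has norm one in `A^p` and maximises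
`Re ∫ f conj k dA` over all `f` of norm one in `A^p`. -/
def IsExtremal (p : ℝ) (k F : ℂ → ℂ) : Prop :=
  Bergman p F ∧ ∫ z in ball (0 : ℂ) 1, ‖F z‖ ^ p = 1 ∧
    ∀ f : ℂ → ℂ, Bergman p f → ∫ z in ball (0 : ℂ) 1, ‖f z‖ ^ p = 1 →
      (∫ z in ball (0 : ℂ) 1, f z * conj (k z)).re ≤ (∫ z in ball (0 : ℂ) 1, F z * conj (k z)).re

/-- `BMOA`: analytic functions on the disc with bounded quadratic means (that is, in the Hardy space
`H^2`) whose radial boundary function `g`, in the angle coordinate, has mean oscillation over the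
arcs of the unit circle bounded by a constant. -/
def BMOA (k : ℂ → ℂ) : Prop :=
  DifferentiableOn ℂ k (ball 0 1) ∧
  (∃ C : ℝ, ∀ r ∈ Ioo (0 : ℝ) 1, ∫ θ in (-π)..π, ‖k (circleMap 0 r θ)‖ ^ 2 ≤ C) ∧
  ∃ g : ℝ → ℂ, (∀ᵐ θ : ℝ, Tendsto (fun r : ℝ => k (circleMap 0 r θ)) (𝓝[<] 1) (𝓝 (g θ))) ∧
    ∃ B : ℝ, ∀ α β : ℝ, α < β → β ≤ α + 2 * π → IntervalIntegrable g volume α β ∧
      (1 / (β - α)) * ∫ θ in α..β, ‖g θ - (1 / (β - α)) • ∫ φ in α..β, g φ‖ ≤ B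

/-- The Bloch space: analytic functions on the disc with `(1 - |z|²) |f'(z)|` bounded. -/
def Bloch (f : ℂ → ℂ) : Prop :=
  DifferentiableOn ℂ f (ball 0 1) ∧
    ∃ B : ℝ, ∀ z ∈ ball (0 : ℂ) 1, (1 - ‖z‖ ^ 2) * ‖deriv f z‖ ≤ B

/-- For `p = 8/7` (so `q = 8`) there is a nonzero bounded kernel `k ∈ A^8` with an `A^p` extremal
function `F` which is not in the Bloch space and not in `BMOA`. Hence the assertion of question Q1
(for all `1 < p < ∞`, bounded kernels have extremal functions in `BMOA`) is false. -/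
theorem result :
    (∃ k F : ℂ → ℂ, Bergman 8 k ∧ (∃ z ∈ ball (0 : ℂ) 1, k z ≠ 0) ∧
      (∃ M : ℝ, ∀ z ∈ ball (0 : ℂ) 1, ‖k z‖ ≤ M) ∧ IsExtremal (8 / 7) k F ∧
      ¬ Bloch F ∧ ¬ BMOA F) ∧
    ¬ (∀ p q : ℝ, 1 < p → q = p / (p - 1) → ∀ k F : ℂ → ℂ, Bergman q k →
      (∃ z ∈ ball (0 : ℂ) 1, k z ≠ 0) → IsExtremal p k F →
      (∃ M : ℝ, ∀ z ∈ ball (0 : ℂ) 1, ‖k z‖ ≤ M) → BMOA F) := by
  have key : ∃ k F : ℂ → ℂ, Bergman 8 k ∧ (∃ z ∈ ball (0 : ℂ) 1, k z ≠ 0) ∧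
      (∃ M : ℝ, ∀ z ∈ ball (0 : ℂ) 1, ‖k z‖ ≤ M) ∧ IsExtremal (8 / 7) k F ∧
      ¬ Bloch F ∧ ¬ BMOA F := by
    obtain ⟨k, c, hc, hkd, ⟨C, hC⟩, hk0, hFi, hF1, hext⟩ := Pool.Agent.Helper89.BX.main
    refine ⟨k, fun z => (c : ℂ) * Pool.Agent.Helper89.BX.F z,
      ⟨hkd, Pool.Agent.Helper89.BX.bounded_int hkd hC (by norm_num)⟩, hk0, ⟨C, hC⟩,
      ⟨⟨Pool.Agent.Helper89.BX.F_diffOn.const_mul _, hFi⟩, hF1, fun f hf hf1 => hext f hf.1 hf.2 hf1⟩,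
      ?_, ?_⟩
    · rintro ⟨-, B, hB⟩
      exact Pool.Agent.Helper89.BX.not_bloch hc hB
    · rintro ⟨-, -, g, hg, B, hB⟩
      exact Pool.Agent.Helper89.BX.not_bmo hc g hg hB
  refine ⟨key, fun hall => ?_⟩
  obtain ⟨k, F, h1, h2, h3, h4, -, h6⟩ := key
  exact h6 (hall (8 / 7) 8 (by norm_num) (by norm_num) k F h1 h2 h4 h3)

end Pool.Agent.Results.MP_7d928b_an.BoundedKernelNotBMOA
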